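import Pool.Agent.TH803.LU.ULp
import Pool.Agent.W12.UN.Slow
import Pool.Agent.W215.UN.Gam

/-!
# Euler products of degree `m` over the rational primes with local roots at most `p ^ θ` belong to the
class `UL` with the parameter `θ` (after `Pool.Agent.TH839.UH.EP`, the case `θ = 1`)
-/

set_option autoImplicit false

open Complex Filter Topology Set
open scoped ComplexConjugate

namespace Pool.Agent.Q12.HW.Eul

open Pool.Agent.W169.HF H353.E Pool.Agent.W355.UN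

variable {m : ℕ} {α : Nat.Primes → Fin m → ℂ} {θ : ℝ}

/-- one term of the Euler product -/
noncomputable def u (α : Nat.Primes → Fin m → ℂ) (p : Nat.Primes) (j : Fin m) (s : ℂ) : ℂ :=
  α p j * ((p : ℕ) : ℂ) ^ (-s)

lemma log_le {z : ℂ} (hz : ‖z‖ ≤ 5 / 8) : ‖log (1 + z)‖ ≤ 2 * ‖z‖ := by
  have h1 := Complex.norm_log_one_add_le (z := z) (by linarith)
  have h2 : (1 - ‖z‖)⁻¹ ≤ 8 / 3 := by
    rw [inv_le_comm₀ (by linarith) (by norm_num)]
    norm_num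
    linarith
  have h3 := norm_nonneg z
  have h4 : ‖z‖ ^ 2 * (1 - ‖z‖)⁻¹ / 2 ≤ ‖z‖ := by
    have h5 : ‖z‖ ^ 2 * (1 - ‖z‖)⁻¹ ≤ ‖z‖ ^ 2 * (8 / 3) := by gcongr
    nlinarith
  linarith

lemma one_add_ne {z : ℂ} (hz : ‖z‖ ≤ 5 / 8) : 1 + z ≠ 0 := by
  intro h
  have h1 : z = -1 := by linear_combination h
  rw [h1, norm_neg, norm_one] at hz
  norm_num at hz

lemma slit {z : ℂ} (hz : ‖z‖ ≤ 5 / 8) : 1 + z ∈ slitPlane := by
  left
  have h1 := (abs_le.1 ((Complex.abs_re_le_norm z).trans hz)).1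
  rw [add_re, one_re]
  linarith

lemma p0 (p : Nat.Primes) : ((p : ℕ) : ℂ) ≠ 0 := by exact_mod_cast p.2.ne_zero

lemma u_le (hα : ∀ p j, ‖α p j‖ ≤ ((p : ℕ) : ℝ) ^ θ) (p : Nat.Primes) (j : Fin m) {s : ℂ} {ρ : ℝ}
    (hρ : 0 ≤ ρ) (hs : 1 + θ + ρ ≤ s.re) :
    ‖u α p j s‖ ≤ ((p : ℕ) : ℝ) ^ (-(1 + ρ)) ∧ ‖u α p j s‖ ≤ 5 / 8 := by
  have hp2 : (2 : ℝ) ≤ ((p : ℕ) : ℝ) := by exact_mod_cast p.2.two_le
  have hp0 : (0 : ℝ) < ((p : ℕ) : ℝ) := by linarith
  have h1 : ‖u α p j s‖ ≤ ((p : ℕ) : ℝ) ^ (-(1 + ρ)) := by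
    unfold u
    rw [norm_mul, Complex.norm_natCast_cpow_of_pos p.2.pos, neg_re]
    calc ‖α p j‖ * ((p : ℕ) : ℝ) ^ (-s.re) ≤ ((p : ℕ) : ℝ) ^ θ * ((p : ℕ) : ℝ) ^ (-s.re) := by
          gcongr
          exact hα p j
      _ = ((p : ℕ) : ℝ) ^ (θ + -s.re) := (Real.rpow_add hp0 _ _).symm
      _ ≤ _ := Real.rpow_le_rpow_of_exponent_le (by linarith) (by linarith)
  have h2 : ((p : ℕ) : ℝ) ^ (-(1 + ρ)) ≤ 1 / 2 := by
    calc ((p : ℕ) : ℝ) ^ (-(1 + ρ)) ≤ ((p : ℕ) : ℝ) ^ (-(1 : ℝ)) :=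
          Real.rpow_le_rpow_of_exponent_le (by linarith) (by linarith)
      _ = (((p : ℕ) : ℝ))⁻¹ := Real.rpow_neg_one _
      _ ≤ 1 / 2 := by
          rw [inv_le_comm₀ hp0 (by norm_num)]
          norm_num
          exact p.2.two_le
  exact ⟨h1, by linarith⟩

/-- the logarithm of one factor -/
noncomputable def F (α : Nat.Primes → Fin m → ℂ) (p : Nat.Primes) (s : ℂ) : ℂ :=
  ∑ j, -log (1 + -u α p j s)

lemma F_le (hα : ∀ p j, ‖α p j‖ ≤ ((p : ℕ) : ℝ) ^ θ) (p : Nat.Primes) {s : ℂ} {ρ : ℝ}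
    (hρ : 0 ≤ ρ) (hs : 1 + θ + ρ ≤ s.re) : ‖F α p s‖ ≤ m * 2 * ((p : ℕ) : ℝ) ^ (-(1 + ρ)) := by
  unfold F
  have h1 : ∀ j : Fin m, ‖-log (1 + -u α p j s)‖ ≤ 2 * ((p : ℕ) : ℝ) ^ (-(1 + ρ)) := by
    intro j
    obtain ⟨a1, a2⟩ := u_le hα p j hρ hs
    have h2 := log_le (z := -u α p j s) (by rw [norm_neg]; exact a2)
    rw [norm_neg] at h2 ⊢
    linarith
  refine (norm_sum_le _ _).trans ((Finset.sum_le_sum fun j _ => h1 j).trans (le_of_eq ?_))
  rw [Finset.sum_const, Finset.card_univ, Fintype.card_fin, nsmul_eq_mul]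
  ring

/-- the logarithm of the Euler product -/
noncomputable def LG (α : Nat.Primes → Fin m → ℂ) (s : ℂ) : ℂ := ∑' p, F α p s

/-- the prime zeta function at `1 + ρ` -/
noncomputable def Z (ρ : ℝ) : ℝ := ∑' p : Nat.Primes, ((p : ℕ) : ℝ) ^ (-(1 + ρ))

lemma Z_nonneg (ρ : ℝ) : 0 ≤ Z ρ := tsum_nonneg fun p => Real.rpow_nonneg (Nat.cast_nonneg _) _

lemma p_sum {ρ : ℝ} (hρ : 0 < ρ) : Summable fun p : Nat.Primes => ((p : ℕ) : ℝ) ^ (-(1 + ρ)) :=
  Nat.Primes.summable_rpow.2 (by linarith)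

lemma LG_sum (hα : ∀ p j, ‖α p j‖ ≤ ((p : ℕ) : ℝ) ^ θ) {s : ℂ} {ρ : ℝ} (hρ : 0 < ρ)
    (hs : 1 + θ + ρ ≤ s.re) : Summable fun p : Nat.Primes => F α p s :=
  Summable.of_norm_bounded ((p_sum hρ).mul_left ((m : ℝ) * 2)) fun p => F_le hα p hρ.le hs

lemma LG_le (hα : ∀ p j, ‖α p j‖ ≤ ((p : ℕ) : ℝ) ^ θ) {s : ℂ} {ρ : ℝ} (hρ : 0 < ρ)
    (hs : 1 + θ + ρ ≤ s.re) : ‖LG α s‖ ≤ m * (2 * Z ρ) := by
  unfold LG
  refine (tsum_of_norm_bounded ((p_sum hρ).mul_left ((m : ℝ) * 2)).hasSum fun p =>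
    F_le hα p hρ.le hs).trans ?_
  rw [tsum_mul_left]
  unfold Z
  apply le_of_eq
  ring

lemma isOpen_re (x : ℝ) : IsOpen {s : ℂ | x < s.re} :=
  isOpen_lt continuous_const Complex.continuous_re

lemma LG_diff (hα : ∀ p j, ‖α p j‖ ≤ ((p : ℕ) : ℝ) ^ θ) :
    DifferentiableOn ℂ (LG α) {s : ℂ | 1 + θ < s.re} := by
  intro s hs
  have hs' : 1 + θ < s.re := hs
  obtain ⟨ρ, hρd⟩ : ∃ ρ : ℝ, ρ = (s.re - (1 + θ)) / 2 := ⟨_, rfl⟩
  have hρ : 0 < ρ := by rw [hρd]; linarith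
  have hmem : s ∈ {s : ℂ | 1 + θ + ρ < s.re} := by
    show 1 + θ + ρ < s.re
    rw [hρd]
    linarith
  have key : DifferentiableOn ℂ (LG α) {s : ℂ | 1 + θ + ρ < s.re} := by
    refine differentiableOn_tsum_of_summable_norm (u := fun p : Nat.Primes =>
      m * 2 * ((p : ℕ) : ℝ) ^ (-(1 + ρ))) ((p_sum hρ).mul_left ((m : ℝ) * 2)) (fun p s hs => ?_)
      (isOpen_re _) (fun p s hs => F_le hα p hρ.le (le_of_lt hs))
    have hs' : 1 + θ + ρ < s.re := hs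
    unfold F
    refine DifferentiableAt.differentiableWithinAt ?_
    refine DifferentiableAt.fun_sum fun j _ => ?_
    have hg : DifferentiableAt ℂ (fun s => 1 + -u α p j s) s := by
      unfold u
      have h1 : DifferentiableAt ℂ (fun s : ℂ => ((p : ℕ) : ℂ) ^ (-s)) s :=
        DifferentiableAt.const_cpow (by fun_prop) (Or.inl (p0 p))
      exact ((h1.const_mul (α p j)).neg).const_add 1
    exact (hg.clog (slit (z := -u α p j s) (by
      rw [norm_neg]; exact (u_le hα p j hρ.le hs'.le).2))).neg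
  exact (key.differentiableAt ((isOpen_re _).mem_nhds hmem)).differentiableWithinAt

/-- the Euler product -/
noncomputable def E (α : Nat.Primes → Fin m → ℂ) (s : ℂ) : ℂ :=
  ∏' p : Nat.Primes, ∏ j, (1 - α p j * ((p : ℕ) : ℂ) ^ (-s))⁻¹

theorem prod_eq (hα : ∀ p j, ‖α p j‖ ≤ ((p : ℕ) : ℝ) ^ θ) {s : ℂ} (hs : 1 + θ < s.re) :
    HasProd (fun p : Nat.Primes => ∏ j, (1 - α p j * ((p : ℕ) : ℂ) ^ (-s))⁻¹) (cexp (LG α s)) := by
  have hρ : 0 < s.re - (1 + θ) := by linarith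
  have H := (LG_sum hα hρ (s := s) (by linarith)).hasSum.cexp
  refine H.congr_fun ?_ |> fun h => h
  intro p
  simp only [Function.comp_apply]
  unfold F
  rw [Complex.exp_sum]
  refine Finset.prod_congr rfl fun j _ => ?_
  rw [Complex.exp_neg, Complex.exp_log (one_add_ne (z := -u α p j s) (by
    rw [norm_neg]; exact (u_le hα p j hρ.le (by linarith)).2))]
  unfold u
  rw [← sub_eq_add_neg]

lemma E_ev (hα : ∀ p j, ‖α p j‖ ≤ ((p : ℕ) : ℝ) ^ θ) {s : ℂ} (hs : 1 + θ < s.re) :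
    E α =ᶠ[𝓝 s] fun s => cexp (LG α s) := by
  filter_upwards [(isOpen_re (1 + θ)).mem_nhds hs] with z hz
  exact (prod_eq hα hz).tprod_eq

lemma E_an (hα : ∀ p j, ‖α p j‖ ≤ ((p : ℕ) : ℝ) ^ θ) {s : ℂ} (hs : 1 + θ < s.re) :
    DifferentiableAt ℂ (E α) s ∧ E α s ≠ 0 := by
  constructor
  · exact (((LG_diff hα).differentiableAt ((isOpen_re _).mem_nhds hs)).cexp).congr_of_eventuallyEq
      (E_ev hα hs)
  · rw [(E_ev hα hs).eq_of_nhds]
    exact Complex.exp_ne_zero _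

theorem logDeriv_le (hα : ∀ p j, ‖α p j‖ ≤ ((p : ℕ) : ℝ) ^ θ) {s : ℂ} {ρ : ℝ} (hρ : 0 < ρ)
    (hs : 1 + θ + ρ ≤ s.re) : ‖logDeriv (E α) s‖ ≤ m * (2 * Z (ρ / 2)) / (ρ / 2) := by
  have hs' : 1 + θ < s.re := by linarith
  have hd : DifferentiableAt ℂ (LG α) s := (LG_diff hα).differentiableAt ((isOpen_re _).mem_nhds hs')
  have h1 : logDeriv (E α) s = deriv (LG α) s := by
    rw [logDeriv_apply, (E_ev hα hs').deriv_eq, (E_ev hα hs').eq_of_nhds, hd.hasDerivAt.cexp.deriv,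
      mul_div_cancel_left₀ _ (Complex.exp_ne_zero _)]
  rw [h1]
  have hre : ∀ z : ℂ, ‖z - s‖ ≤ ρ / 2 → 1 + θ + ρ / 2 ≤ z.re := by
    intro z hz
    have h2 := (abs_le.1 ((Complex.abs_re_le_norm (z - s)).trans hz)).1
    rw [sub_re] at h2
    linarith
  refine Complex.norm_deriv_le_of_forall_mem_sphere_norm_le (c := s) (R := ρ / 2)
    (C := m * (2 * Z (ρ / 2))) (f := LG α) (by linarith) ?_ (fun z hz => ?_)
  · apply DifferentiableOn.diffContOnCl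
    rw [closure_ball _ (by linarith)]
    refine (LG_diff hα).mono fun z hz => ?_
    rw [Metric.mem_closedBall, dist_eq_norm] at hz
    show 1 + θ < z.re
    linarith [hre z hz]
  · rw [mem_sphere_iff_norm] at hz
    exact LG_le hα (by linarith) (hre z hz.le)

/-- a completed L-function with an Euler product of degree `m` over the rational primes, local roots at
most `p ^ θ`, and `r ≤ m` poles at `s = 1` -/
structure HW (θ : ℝ) (m r : ℕ) (N : ℝ) (a : Fin m → ℂ) (α : Nat.Primes → Fin m → ℂ) (X : ℂ → ℂ) :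
    Prop where
  hθ : 0 ≤ θ
  hθ1 : θ ≤ 1 / 2
  hm : 1 ≤ m
  hr : r ≤ m
  hN : 1 ≤ N
  re_ge : ∀ j, -1 / 2 ≤ (a j).re
  hα : ∀ p j, ‖α p j‖ ≤ ((p : ℕ) : ℝ) ^ θ
  entire : Differentiable ℂ X
  order : ∃ A ρ : ℝ, ∀ s : ℂ, ‖X s‖ ≤ Real.exp (A * (1 + ‖s‖) ^ ρ)
  fe : ∃ ε : ℂ, ‖ε‖ = 1 ∧ ∀ s : ℂ, X s = ε * conj (X (1 - conj s))
  eq : ∃ σ : ℝ, ∀ s : ℂ, σ ≤ s.re → X s = (s * (s - 1)) ^ r *
    ((N : ℂ) ^ (s / 2) * ∏ j, Gammaℝ (s + a j)) * E α s

variable {r : ℕ} {N : ℝ} {a : Fin m → ℂ} {X : ℂ → ℂ}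

lemma HW.re_le (h : HW θ m r N a α X) (j : Fin m) : ((fun j => -a j) j).re ≤ 1 / 2 := by
  have := h.re_ge j
  simp only [neg_re]
  linarith

/-- the formula for `X` holds for `Re s > 1 + θ` -/
lemma HW.eq' (h : HW θ m r N a α X) {s : ℂ} (hs : 1 + θ < s.re) :
    X s = gaf N (fun j => -a j) s * ((s * (s - 1)) ^ r * E α s) := by
  have hgp := gaf_GP h.hm h.hN h.re_le
  have hθ := h.hθ
  obtain ⟨σ, hσ⟩ := h.eq
  have h1 : AnalyticOnNhd ℂ X {s : ℂ | 1 + θ < s.re} := fun z _ => h.entire.analyticAt z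
  have h2 : AnalyticOnNhd ℂ (fun s => gaf N (fun j => -a j) s * ((s * (s - 1)) ^ r * E α s))
      {s : ℂ | 1 + θ < s.re} := by
    refine DifferentiableOn.analyticOnNhd (fun z hz => ?_) (isOpen_re _)
    have hz' : 1 + θ < z.re := hz
    have h3 : DifferentiableAt ℂ (gaf N fun j => -a j) z :=
      (hgp.der z (by linarith)).differentiableAt
    have h4 : DifferentiableAt ℂ (fun s : ℂ => (s * (s - 1)) ^ r) z := by fun_prop
    exact (h3.mul (h4.mul (E_an h.hα hz').1)).differentiableWithinAt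
  have hz0 : ((max σ (1 + θ) + 1 : ℝ) : ℂ) ∈ {s : ℂ | 1 + θ < s.re} := by
    have := le_max_right σ (1 + θ)
    show 1 + θ < (((max σ (1 + θ) + 1 : ℝ) : ℂ)).re
    rw [Complex.ofReal_re]
    linarith
  refine h1.eqOn_of_preconnected_of_eventuallyEq h2 (convex_halfSpace_re_gt (1 + θ)).isPreconnected
    hz0 ?_ hs
  have h3 : ∀ᶠ z : ℂ in 𝓝 ((max σ (1 + θ) + 1 : ℝ) : ℂ), σ < z.re := by
    have := le_max_left σ (1 + θ)
    exact (Complex.continuous_re.tendsto _).eventually (lt_mem_nhds (by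
      rw [Complex.ofReal_re]
      linarith))
  filter_upwards [h3] with z hz
  rw [hσ z hz.le, gaf_eq]
  ring

theorem HW.slow (h : HW θ m r N a α X) : Slow X := by
  refine ⟨h.entire, Pool.Agent.W12.UN.slow X h.entire h.order h.fe ?_⟩
  have hlin : SlowR fun s : ℂ => s := by
    refine SlowR.of_exp (A := 0) (k := 1) fun s _ => ?_
    have := Real.add_one_le_exp ‖s‖
    rw [zero_add, one_mul]
    linarith
  have hlin1 : SlowR fun s : ℂ => s - 1 := by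
    refine SlowR.of_exp (A := 0) (k := 1) fun s _ => ?_
    have := Real.add_one_le_exp ‖s‖
    have h2 := norm_sub_le s 1
    rw [norm_one] at h2
    rw [zero_add, one_mul]
    linarith
  have hN0 : 0 < N := by linarith [h.hN]
  have hcp : SlowR fun s : ℂ => (N : ℂ) ^ (s / 2) := by
    refine SlowR.of_exp (A := 0) (k := Real.log N) fun s hs => ?_
    rw [Complex.norm_cpow_eq_rpow_re_of_pos hN0, Real.rpow_def_of_pos hN0, zero_add]
    apply Real.exp_le_exp.2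
    have h1 : (s / 2).re ≤ ‖s‖ := by
      have e : (s / 2).re = s.re / 2 := by
        rw [show (2 : ℂ) = ((2 : ℝ) : ℂ) by norm_num, Complex.div_ofReal_re]
      rw [e]
      have := Complex.re_le_norm s
      linarith
    exact mul_le_mul_of_nonneg_left h1 (Real.log_nonneg h.hN)
  have hga : SlowR fun s : ℂ => ∏ j, Gammaℝ (s + a j) :=
    SlowR.prod Finset.univ fun j => Pool.Agent.W215.UN.gam (a j) (h.re_ge j)
  have hL : SlowR fun s : ℂ => E α s := by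
    refine SlowR.of_exp (A := m * (2 * Z (1 / 2))) (k := 0) fun s hs => ?_
    have h1 : E α s = cexp (LG α s) := (prod_eq h.hα (by linarith [h.hθ1])).tprod_eq
    rw [h1, Complex.norm_exp, zero_mul, add_zero]
    apply Real.exp_le_exp.2
    exact (Complex.re_le_norm _).trans (LG_le h.hα (by norm_num) (by linarith [h.hθ1]))
  have key := ((hcp.mul hga).mul (((hlin.mul hlin1).pow r).mul hL))
  intro δ hδ
  obtain ⟨K, hK, H⟩ := key δ hδ
  refine ⟨K, hK, fun s hs => ?_⟩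
  rw [h.eq' (by linarith [h.hθ1]), gaf_eq]
  exact H s hs

/-- the bound for the logarithmic derivatives -/
noncomputable def BE (ρ : ℝ) : ℝ := 4 / |ρ| * Z (|ρ| / 2) + (1 + 1 / |ρ|)

lemma BE_nonneg (ρ : ℝ) : 0 ≤ BE ρ := by
  have := Z_nonneg (|ρ| / 2)
  unfold BE
  positivity

/-- the class `UL` -/
theorem HW.ul (h : HW θ m r N a α X) : UL m BE N θ (fun j => -a j) X
    (fun s => (s * (s - 1)) ^ r * E α s) := by
  have hθ := h.hθ
  have hs0 : ∀ s : ℂ, 1 < s.re → s ≠ 0 := fun s hs h0 => by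
    rw [h0] at hs; norm_num at hs
  have hs1 : ∀ s : ℂ, 1 < s.re → s - 1 ≠ 0 := fun s hs h0 => by
    rw [sub_eq_zero] at h0
    rw [h0] at hs; norm_num at hs
  refine ⟨h.hm, h.hN, BE_nonneg, h.hθ, h.re_le, h.slow, h.fe, fun s hs => h.eq' hs,
    fun s hs => ?_, fun ρ hρ _ s hs => ?_⟩
  · have hs' : 1 < s.re := by linarith
    exact mul_ne_zero (pow_ne_zero _ (mul_ne_zero (hs0 s hs') (hs1 s hs'))) (E_an h.hα hs).2
  · have hs' : 1 < s.re := by linarith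
    obtain ⟨hdE, hne⟩ := E_an h.hα (s := s) (by linarith)
    have e1 : logDeriv (fun s : ℂ => (s * (s - 1)) ^ r * E α s) s =
        r * (1 / s + 1 / (s - 1)) + logDeriv (E α) s := by
      rw [logDeriv_mul (f := fun s : ℂ => (s * (s - 1)) ^ r) (g := E α) s
        (pow_ne_zero _ (mul_ne_zero (hs0 s hs') (hs1 s hs'))) hne (by fun_prop) hdE]
      congr 1
      have e2 : logDeriv (fun s : ℂ => (s * (s - 1)) ^ r) s =
          r * logDeriv (fun s : ℂ => s * (s - 1)) s :=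
        logDeriv_fun_pow (f := fun s : ℂ => s * (s - 1)) (by fun_prop) r
      rw [e2, logDeriv_mul (f := fun s : ℂ => s) (g := fun s : ℂ => s - 1) s (hs0 s hs') (hs1 s hs')
        (by fun_prop) (by fun_prop)]
      congr 1
      rw [logDeriv_apply, logDeriv_apply]
      simp
    rw [e1]
    have hm0 : (0 : ℝ) ≤ m := Nat.cast_nonneg m
    have hr0 : (r : ℝ) ≤ m := by exact_mod_cast h.hr
    have hρs : ρ ≤ ‖s - 1‖ := by
      have := Complex.re_le_norm (s - 1)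
      rw [sub_re, one_re] at this
      linarith
    have hρ0 : 1 ≤ ‖s‖ := by
      have := Complex.re_le_norm s
      linarith
    have h1 : ‖(r : ℂ) * (1 / s + 1 / (s - 1))‖ ≤ m * (1 + 1 / ρ) := by
      rw [norm_mul, Complex.norm_natCast]
      have h2 : ‖1 / s + 1 / (s - 1)‖ ≤ 1 + 1 / ρ := by
        refine (norm_add_le _ _).trans ?_
        rw [norm_div, norm_div, norm_one]
        have h3 : 1 / ‖s‖ ≤ 1 := by
          rw [div_le_one (by linarith)]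
          exact hρ0
        have h4 : 1 / ‖s - 1‖ ≤ 1 / ρ := one_div_le_one_div_of_le hρ hρs
        linarith
      exact mul_le_mul hr0 h2 (norm_nonneg _) hm0
    have h2 := logDeriv_le h.hα hρ hs
    refine (norm_add_le _ _).trans ?_
    have e3 : (m : ℝ) * BE ρ = m * (1 + 1 / ρ) + m * (2 * Z (ρ / 2)) / (ρ / 2) := by
      unfold BE
      rw [abs_of_pos hρ]
      field_simp
      ring
    rw [e3]
    exact add_le_add h1 h2

end Pool.Agent.Q12.HW.Eul
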