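import Pool.Agent.W355.UN.PowCM
import Pool.Agent.TH803.LU.ULp
import Pool.Agent.Q12.HW.CohL

/-!
# The Laguerre inequalities for Hasse-Weil L-functions
-/

set_option autoImplicit false

open Complex MeasureTheory Filter Topology Set
open scoped ComplexConjugate

namespace Pool.Agent.Q12.HW.Lag

open H353.E Pool.Agent.W355.UN
open Pool.Agent.TH803.LU (LC sh LC_eq sh_slow abs_pos sharp_pos zf_pos rh_iff_lag)

/-- the `n`-th Laguerre expression of `Λ` on the line `Re s = c` at height `t` -/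
noncomputable def Lg (c : ℝ) (Λ : ℂ → ℂ) (n : ℕ) (t : ℝ) : ℝ :=
  iteratedDeriv (2 * n) (fun x : ℝ => ‖Λ ((c : ℂ) + t * I + x)‖ ^ 2) 0 / ((2 * n).factorial : ℝ)

theorem Lg_shift {X Λ : ℂ → ℂ} {κ c : ℝ} (hκ : 0 < κ) (hd : Differentiable ℂ X)
    (hX : ∀ z : ℂ, X z = (κ : ℂ) * Λ (z + (c : ℂ))) (n : ℕ) (t : ℝ) :
    LC (sh X t) n = κ ^ 2 * Lg (1 / 2 + c) Λ n t := by
  have hd1 : Differentiable ℂ (sh X t) :=
    hd.comp (by fun_prop : Differentiable ℂ fun u : ℂ => 1 / 2 + t * I + u)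
  have hΛ : ∀ z : ℂ, Λ z = ((κ : ℂ))⁻¹ * X (z - c) := by
    intro z
    rw [hX, sub_add_cancel, ← mul_assoc, inv_mul_cancel₀ (by exact_mod_cast hκ.ne'), one_mul]
  have hdΛ : Differentiable ℂ Λ := by
    have e : Λ = fun z => ((κ : ℂ))⁻¹ * X (z - c) := funext hΛ
    rw [e]
    exact (hd.comp (by fun_prop : Differentiable ℂ fun z : ℂ => z - c)).const_mul _
  have hd2 : Differentiable ℂ (fun u : ℂ => Λ (((1 / 2 + c : ℝ) : ℂ) + t * I + u)) :=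
    hdΛ.comp (by fun_prop : Differentiable ℂ fun u : ℂ => ((1 / 2 + c : ℝ) : ℂ) + t * I + u)
  have e1 : sh X t = fun u : ℂ => (κ : ℂ) * Λ (((1 / 2 + c : ℝ) : ℂ) + t * I + u) := by
    funext u
    unfold sh
    rw [hX]
    congr 2
    push_cast
    ring
  have e2 : (fun y : ℝ => ‖sh X t (y : ℂ)‖ ^ 2) =
      fun y : ℝ => κ ^ 2 * ‖Λ (((1 / 2 + c : ℝ) : ℂ) + t * I + (y : ℂ))‖ ^ 2 := by
    funext y
    rw [e1]
    simp only [norm_mul, Complex.norm_real, Real.norm_eq_abs, abs_of_pos hκ, mul_pow]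
  have hsm : ContDiff ℝ (⊤ : ℕ∞) (fun y : ℝ => ‖Λ (((1 / 2 + c : ℝ) : ℂ) + t * I + (y : ℂ))‖ ^ 2) := by
    have h1 : ContDiff ℝ (⊤ : ℕ∞) (fun u : ℂ => Λ (((1 / 2 + c : ℝ) : ℂ) + t * I + u)) :=
      (hd2.contDiff (n := (⊤ : ℕ∞))).restrict_scalars ℝ
    exact (h1.comp Complex.ofRealCLM.contDiff).norm_sq ℝ
  rw [LC_eq hd1, e2, iteratedDeriv_const_mul]
  · unfold Lg
    ring
  · refine (hsm.of_le ?_).contDiffAt
    change (((2 * n : ℕ) : ℕ∞) : WithTop ℕ∞) ≤ ((⊤ : ℕ∞) : WithTop ℕ∞)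
    exact WithTop.coe_le_coe.2 le_top

theorem one_le_cond' {m : ℕ} {N : ℝ} (hN : 1 ≤ N) (μ : Fin m → ℂ) (y : ℝ) :
    1 ≤ Pool.Agent.W355.UN.cond N μ y := one_le_cond hN μ y

/-- the theorem for the class `UL` -/
theorem fin_ul {B : ℝ → ℝ} (hB : ∀ ρ, 0 ≤ B ρ) {θ η : ℝ} (hθ0 : 0 ≤ θ) (hθ1 : θ ≤ 1 / 2)
    (hη : 0 < η) : ∃ C₀ : ℝ, 0 < C₀ ∧ ∀ (m : ℕ) (N : ℝ) (μ : Fin m → ℂ) (X L : ℂ → ℂ),
    UL m B N θ μ X L →
    (∀ (n : ℕ) (t : ℝ), ((1 + 2 * θ) / 4 + η) * Real.log (Pool.Agent.W355.UN.cond N μ t) + C₀ * m ≤ n →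
      0 < LC (sh X t) n) ∧
    ((∀ s : ℂ, X s = 0 → s.re = 1 / 2) ↔
      ∀ (n : ℕ) (t : ℝ), (n : ℝ) <
        ((1 + 2 * θ) / 4 + η) * Real.log (Pool.Agent.W355.UN.cond N μ t) + C₀ * m →
        0 ≤ LC (sh X t) n) := by
  obtain ⟨C, hC, HC⟩ := abs_pos (hB 1)
  obtain ⟨K, hK, HK⟩ := sharp_pos (B := B) (θ := θ) (η := min η 1) hB hθ0 hθ1
    (by positivity) (min_le_right _ _)
  refine ⟨C * (1 + K), by positivity, fun m N μ X L u => ?_⟩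
  have hd : (1 : ℝ) ≤ m := by exact_mod_cast u.hm
  have key : ∀ (n : ℕ) (t : ℝ), ((1 + 2 * θ) / 4 + η) * Real.log (Pool.Agent.W355.UN.cond N μ t) +
      C * (1 + K) * m ≤ n → 0 < LC (sh X t) n := by
    intro n t hn
    have hlog : 0 ≤ Real.log (Pool.Agent.W355.UN.cond N μ t) :=
      Real.log_nonneg (one_le_cond' u.hN μ t)
    by_cases hc : K * m ≤ Real.log (Pool.Agent.W355.UN.cond N μ t)
    · refine HK m N μ X L u t n hc (le_trans ?_ hn)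
      have h1 : min η 1 ≤ η := min_le_left _ _
      have h2 : 0 ≤ C * (1 + K) * m := by positivity
      nlinarith [mul_le_mul_of_nonneg_right h1 hlog]
    · push Not at hc
      refine HC m N θ μ X L u (by linarith) t n (le_trans ?_ hn)
      have h1 : 0 ≤ ((1 + 2 * θ) / 4 + η) * Real.log (Pool.Agent.W355.UN.cond N μ t) := by positivity
      nlinarith [mul_le_mul_of_nonneg_left hc.le hC.le]
  refine ⟨key, ?_⟩
  rw [rh_iff_lag u]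
  constructor
  · intro hr n t _
    exact hr n t
  · intro hr n t
    rcases lt_or_ge (n : ℝ) (((1 + 2 * θ) / 4 + η) * Real.log (Pool.Agent.W355.UN.cond N μ t) +
      C * (1 + K) * m) with h1 | h1
    · exact hr n t h1
    · exact (key n t h1).le

/-- under a zero-free half-plane -/
theorem fin_zfu {B : ℝ → ℝ} (hB : ∀ ρ, 0 ≤ B ρ) {η ϑ : ℝ} (hη : 0 < η) (hϑ : 0 ≤ ϑ)
    (hϑ1 : ϑ ≤ 1 / 2) (m : ℕ) : ∃ C₁ : ℝ, ∀ (N : ℝ) (μ : Fin m → ℂ) (X L : ℂ → ℂ),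
    UL m B N 0 μ X L → (∀ s : ℂ, X s = 0 → s.re ≤ 1 / 2 + ϑ) → ∀ (n : ℕ) (t : ℝ),
    (ϑ / 2 + η) * Real.log (Pool.Agent.W355.UN.cond N μ t) + C₁ ≤ n → 0 < LC (sh X t) n := by
  obtain ⟨C, hC, HC⟩ := abs_pos (hB 1)
  obtain ⟨K, hK, HK⟩ := zf_pos (B := B) (η := min η 1) hB hϑ hϑ1
    (by positivity) (min_le_right _ _) m
  refine ⟨C * (m + K), fun N μ X L u hz n t hn => ?_⟩
  have hlog : 0 ≤ Real.log (Pool.Agent.W355.UN.cond N μ t) :=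
    Real.log_nonneg (one_le_cond' u.hN μ t)
  by_cases hc : K ≤ Real.log (Pool.Agent.W355.UN.cond N μ t)
  · refine HK N μ X L u hz t n hc (le_trans ?_ hn)
    have h1 : min η 1 ≤ η := min_le_left _ _
    have h2 : 0 ≤ C * (m + K) := by positivity
    nlinarith [mul_le_mul_of_nonneg_right h1 hlog]
  · push Not at hc
    refine HC m N 0 μ X L u (by norm_num) t n (le_trans ?_ hn)
    have h1 : 0 ≤ (ϑ / 2 + η) * Real.log (Pool.Agent.W355.UN.cond N μ t) := by positivity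
    nlinarith [mul_le_mul_of_nonneg_left hc.le hC.le]

/-- the statements for the line `Re s = x` and the coefficient `q` -/
structure Res (q C x : ℝ) (b : ℕ) (cn : ℝ → ℝ) (Λ : ℂ → ℂ) : Prop where
  pos : ∀ (n : ℕ) (t : ℝ), q * Real.log (cn t) + C * b ≤ n → 0 < Lg x Λ n t
  grh : (∀ s : ℂ, Λ s = 0 → s.re = x) ↔ ∀ (n : ℕ) (t : ℝ),
    (n : ℝ) < q * Real.log (cn t) + C * b → 0 ≤ Lg x Λ n t

theorem res_shift {X Λ : ℂ → ℂ} {κ c : ℝ} (hκ : 0 < κ) (hd : Differentiable ℂ X)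
    (hX : ∀ z : ℂ, X z = (κ : ℂ) * Λ (z + (c : ℂ))) {q C : ℝ} {b : ℕ} {cn : ℝ → ℝ}
    (h1 : ∀ (n : ℕ) (t : ℝ), q * Real.log (cn t) + C * b ≤ n → 0 < LC (sh X t) n)
    (h2 : (∀ s : ℂ, X s = 0 → s.re = 1 / 2) ↔ ∀ (n : ℕ) (t : ℝ),
      (n : ℝ) < q * Real.log (cn t) + C * b → 0 ≤ LC (sh X t) n) :
    Res q C (1 / 2 + c) b cn Λ := by
  have e := Lg_shift hκ hd hX
  have hκc : (κ : ℂ) ≠ 0 := by exact_mod_cast hκ.ne'
  constructor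
  · intro n t hn
    have h3 := h1 n t hn
    rw [e] at h3
    exact (mul_pos_iff_of_pos_left (by positivity)).1 h3
  · have h4 : (∀ s : ℂ, Λ s = 0 → s.re = 1 / 2 + c) ↔ ∀ s : ℂ, X s = 0 → s.re = 1 / 2 := by
      constructor
      · intro h s hs
        rw [hX] at hs
        have h5 := h _ ((mul_eq_zero.1 hs).resolve_left hκc)
        rw [add_re, ofReal_re] at h5
        linarith
      · intro h s hs
        have h5 := h (s - c) (by rw [hX, sub_add_cancel, hs, mul_zero])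
        rw [sub_re, ofReal_re] at h5
        linarith
    rw [h4, h2]
    refine forall_congr' fun n => forall_congr' fun t => ?_
    rw [e]
    refine forall_congr' fun _ => ?_
    exact mul_nonneg_iff_of_pos_left (by positivity)

theorem zf_shift {X Λ : ℂ → ℂ} {κ c ϑ : ℝ} (hκ : 0 < κ)
    (hX : ∀ z : ℂ, X z = (κ : ℂ) * Λ (z + (c : ℂ)))
    (h : ∀ s : ℂ, Λ s = 0 → s.re ≤ 1 / 2 + c + ϑ) (s : ℂ) (hs : X s = 0) : s.re ≤ 1 / 2 + ϑ := by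
  have hκc : (κ : ℂ) ≠ 0 := by exact_mod_cast hκ.ne'
  rw [hX] at hs
  have h5 := h _ ((mul_eq_zero.1 hs).resolve_left hκc)
  rw [add_re, ofReal_re] at h5
  linarith

/-- the properties of the completed function of `E ^ g` -/
theorem base (g m : ℕ) (hm : m < g) :
    ∃ (Λ L : ℂ → ℂ) (μ : Fin ((2 * g).choose (2 * m + 1)) → ℂ),
    UL ((2 * g).choose (2 * m + 1)) Bst (Pool.Agent.W355.HW.Cond g (2 * m + 1)) 0 μ
      (fun z => ((1 : ℝ) : ℂ) * Λ (z + ((((2 * m + 1 : ℕ) : ℝ) / 2 : ℝ) : ℂ))) L ∧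
    (∀ y, Pool.Agent.W355.UN.cond (Pool.Agent.W355.HW.Cond g (2 * m + 1)) μ y =
      cnP g (2 * m + 1) y) ∧
    Differentiable ℂ Λ ∧
    (∀ s : ℂ, (((2 * m + 1 : ℕ) : ℝ) - 1) / 2 < s.re →
      Λ s = (Pool.Agent.W355.HW.Cond g (2 * m + 1) : ℂ) ^
        ((s - ((2 * m + 1 : ℕ) : ℂ) / 2) / 2) *
        Pool.Agent.W355.HW.GamF g (2 * m + 1) s *
        Pool.Agent.W355.HW.LL0 g m (s - ((2 * m + 1 : ℕ) : ℂ) / 2)) ∧
    (∀ s : ℂ, Λ (conj s) = conj (Λ s)) ∧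
    (∃ r : ℕ, r ≤ 1 ∧ ∀ s : ℂ, Λ (((2 * m + 1 : ℕ) : ℂ) + 1 - s) = (-1) ^ r * Λ s) := by
  obtain ⟨C', K, hC', -, H'⟩ := Pool.Agent.W355.UN.fin_all
  obtain ⟨Λ, h1, h2, h3, h4, -⟩ := Pool.Agent.W355.UN.main_pow H' hC' g m hm
  obtain ⟨X, hpk, hst⟩ := pk_pow g m hm
  have hd := hpk.diff
  obtain ⟨μ, L, u, ec, σ, hσ⟩ := hpk
  have hc2 : ((2 * m + 1 : ℕ) : ℂ) / 2 = (((((2 * m + 1 : ℕ) : ℝ) / 2 : ℝ)) : ℂ) := by
    push_cast
    rfl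
  have hd2 : Differentiable ℂ fun z : ℂ => Λ (z + (((((2 * m + 1 : ℕ) : ℝ) / 2 : ℝ)) : ℂ)) :=
    h1.comp (by fun_prop)
  have e : (fun z => Λ (z + (((((2 * m + 1 : ℕ) : ℝ) / 2 : ℝ)) : ℂ))) = X := by
    refine Pk.uniq hd hd2 (G := Pool.Agent.W355.HW.GP g m) ⟨σ, hσ⟩ ⟨0, fun s hs => ?_⟩
    show Λ (s + (((((2 * m + 1 : ℕ) : ℝ) / 2 : ℝ)) : ℂ)) = _
    rw [h2 _ (by rw [add_re, ofReal_re]; linarith), hc2, add_sub_cancel_right]
    unfold Pool.Agent.W355.HW.GP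
    rw [Pool.Agent.W355.HW.BB_eq, ← Pool.Agent.W355.HW.GamF_eq]
    rw [← hc2]
    simp only [add_sub_cancel_right]
  have e2 : (fun z => ((1 : ℝ) : ℂ) * Λ (z + (((((2 * m + 1 : ℕ) : ℝ) / 2 : ℝ)) : ℂ))) = X := by
    rw [← e]
    funext z
    rw [Complex.ofReal_one, one_mul]
  refine ⟨Λ, L, μ, ?_, ec, h1, h2, h3, h4⟩
  rw [e2]
  exact u

end Pool.Agent.Q12.HW.Lag
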